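import Mathlib
import Pool.Agent.H28.L1Lift

set_option autoImplicit false

open Filter Topology Finset

namespace Pool.Agent.Results.MP_550623_an.NotHypercyclic

theorem bump (d n : ℕ) (hn : 2 * d + 2 ≤ n) : ∃ c : ℕ → ℝ, (∀ j, 2 * d + 1 ≤ j → c j = 0) ∧
    (∀ j, |c j| ≤ 4 ^ d * (4 * d * n) ^ d) ∧
    (∀ i, |∑ j ∈ range (n + 1), (n.choose j : ℝ) * c (i + j)| ≤ 4 ^ d * (4 * d * n) ^ d) ∧
    ((n : ℝ) ^ 2 / 8) ^ d ≤ ∑ j ∈ range n, (n.choose (j + 1) : ℝ) * c j := by
  let p : Polynomial ℝ := (Polynomial.X * (Polynomial.C (n : ℝ) - Polynomial.X)) ^ d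
  have hp : p.natDegree ≤ 2 * d := by
    refine Polynomial.natDegree_pow_le.trans ?_
    have : (Polynomial.X * (Polynomial.C (n : ℝ) - Polynomial.X)).natDegree ≤ 2 := by
      compute_degree
    nlinarith
  let ρ : ℕ → ℝ := fun s => ((s : ℝ) * (n - s)) ^ d
  have hρ : ∀ s : ℕ, ρ s = p.eval (s : ℝ) := fun s => by simp [ρ, p]
  have hvan : ∀ j, 2 * d + 1 ≤ j → ∀ y : ℕ, (fwdDiff 1)^[j] ρ y = 0 := by
    intro j hj y
    have := congrFun (Polynomial.fwdDiff_iter_eq_zero_of_degree_lt (P := p) (n := j) (by omega)) (y : ℝ)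
    rw [fwdDiff_iter_eq_sum_shift] at this ⊢
    rw [Pi.zero_apply] at this
    rw [← this]
    refine sum_congr rfl (fun k _ => ?_)
    rw [hρ]
    simp
  have hn' : (2 * d + 2 : ℝ) ≤ n := by exact_mod_cast hn
  have hbd : ∀ y : ℕ, (∀ k ≤ 2 * d, |ρ (y + k)| ≤ (4 * d * n) ^ d) → ∀ j,
      |(fwdDiff 1)^[j] ρ y| ≤ 4 ^ d * (4 * d * n) ^ d := by
    intro y hy j
    by_cases hj : 2 * d + 1 ≤ j
    · rw [hvan j hj, abs_zero]; positivity
    rw [fwdDiff_iter_eq_sum_shift]
    refine (abs_sum_le_sum_abs _ _).trans ?_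
    calc ∑ k ∈ range (j + 1), |((-1 : ℤ) ^ (j - k) * (j.choose k : ℤ)) • ρ (y + k • 1)|
        ≤ ∑ k ∈ range (j + 1), (j.choose k : ℝ) * (4 * d * n) ^ d := by
          refine sum_le_sum (fun k hk => ?_)
          rw [zsmul_eq_mul, abs_mul]
          push_cast
          rw [abs_mul, abs_pow, abs_neg, abs_one, one_pow, one_mul, Nat.abs_cast, smul_eq_mul, mul_one]
          exact mul_le_mul_of_nonneg_left (hy k (by have := mem_range.1 hk; omega)) (by positivity)
      _ = 2 ^ j * (4 * d * n) ^ d := by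
          rw [← sum_mul]
          congr 1
          exact_mod_cast Nat.sum_range_choose j
      _ ≤ 4 ^ d * (4 * d * n) ^ d := by
          have : (2 : ℝ) ^ j ≤ 4 ^ d := by
            rw [show (4 : ℝ) = 2 ^ 2 by norm_num, ← pow_mul]
            exact pow_le_pow_right₀ one_le_two (by omega)
          gcongr
  refine ⟨fun j => (fwdDiff 1)^[j] ρ 0, fun j hj => hvan j hj 0, ?_, fun i => ?_, ?_⟩
  · apply hbd 0
    intro k hk
    have hk' : (k : ℝ) ≤ 2 * d := by exact_mod_cast hk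
    simp only [ρ, zero_add, abs_pow]
    apply pow_le_pow_left₀ (abs_nonneg _)
    have h0 : (0 : ℝ) ≤ k := by positivity
    have h1 : (0 : ℝ) ≤ d := by positivity
    rw [abs_of_nonneg (mul_nonneg h0 (by linarith))]
    nlinarith
  · have h1 := shift_eq_sum_fwdDiff_iter 1 ((fwdDiff 1)^[i] ρ) n 0
    have h2 : ∑ j ∈ range (n + 1), (n.choose j : ℝ) * (fwdDiff 1)^[i + j] ρ 0 = (fwdDiff 1)^[i] ρ n := by
      simp only [zero_add, smul_eq_mul, mul_one, nsmul_eq_mul] at h1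
      rw [h1]
      refine sum_congr rfl (fun j _ => ?_)
      rw [add_comm i j, Function.iterate_add_apply]
    rw [h2]
    apply hbd n
    intro k hk
    have hk' : (k : ℝ) ≤ 2 * d := by exact_mod_cast hk
    simp only [ρ, abs_pow]
    apply pow_le_pow_left₀ (abs_nonneg _)
    have h0 : (0 : ℝ) ≤ k := by positivity
    have h1 : (0 : ℝ) ≤ d := by positivity
    push_cast
    rw [abs_of_nonpos (mul_nonpos_of_nonneg_of_nonpos (by linarith) (by linarith))]
    nlinarith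
  · let W : ℕ → ℝ := fun s => ∑ t ∈ range s, ρ t
    have hW : fwdDiff 1 W = ρ := by
      funext s
      simp [fwdDiff, W, sum_range_succ]
    have h1 := shift_eq_sum_fwdDiff_iter 1 W n 0
    simp only [zero_add, smul_eq_mul, mul_one, nsmul_eq_mul] at h1
    rw [sum_range_succ'] at h1
    simp only [Function.iterate_succ_apply, hW] at h1
    have h2 : ∑ j ∈ range n, (n.choose (j + 1) : ℝ) * (fwdDiff 1)^[j] ρ 0 = W n := by
      rw [h1]; simp [W]
    rw [h2]
    have h3 : ρ (n / 2) ≤ W n := by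
      refine single_le_sum (f := ρ) (fun t ht => ?_) (mem_range.2 (by omega))
      have : (t : ℝ) ≤ n := by exact_mod_cast (mem_range.1 ht).le
      exact pow_nonneg (mul_nonneg (by positivity) (by linarith)) _
    refine le_trans ?_ h3
    apply pow_le_pow_left₀ (by positivity)
    have h4 : (2 * (n / 2 : ℕ) : ℝ) ≤ n := by exact_mod_cast Nat.mul_div_le n 2
    have h5 : (n : ℝ) ≤ 2 * (n / 2 : ℕ) + 1 := by exact_mod_cast (by omega : n ≤ 2 * (n / 2) + 1)
    have h1 : (0 : ℝ) ≤ d := by positivity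
    nlinarith

variable {𝕜 : Type} [RCLike 𝕜]

theorem step (u : ℕ → ℕ → 𝕜) (k : ℕ) (hk : ∀ n j, k ≤ j → u n j = 0) (hu : ∀ n j, ‖u n j‖ ≤ 1)
    (ε : ℝ) (hε : 0 < ε) :
    ∃ (M : ℝ) (L : ℕ) (c : ℕ → ℕ → 𝕜), 2 ≤ M ∧ (∀ n j, L ≤ j → c n j = 0) ∧ (∀ n j, ‖c n j‖ ≤ 1) ∧
      (∀ n i, ‖∑ j ∈ range (n + 1), (n.choose j : 𝕜) * c n (i + j)‖ ≤ 1) ∧
      ∀ n, ‖∑ j ∈ range n, (n.choose (j + 1) : 𝕜) * (u n j + ε * c n j)‖ ≤ M := by
  classical
  set d := k + 1 with hd
  let P : ℕ → 𝕜 := fun n => ∑ j ∈ range n, (n.choose (j + 1) : 𝕜) * u n j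
  have hP : ∀ n, ‖P n‖ ≤ k * (n : ℝ) ^ k := by
    intro n
    rcases Nat.eq_zero_or_pos n with rfl | hn
    · simp [P]; positivity
    refine (norm_sum_le _ _).trans ?_
    have hn1 : (1 : ℝ) ≤ n := by exact_mod_cast hn
    calc ∑ j ∈ range n, ‖(n.choose (j + 1) : 𝕜) * u n j‖
        ≤ ∑ j ∈ range n, if j < k then (n : ℝ) ^ k else 0 := by
          refine sum_le_sum (fun j _ => ?_)
          split_ifs with hj
          · rw [norm_mul, RCLike.norm_natCast]
            have h1 : (n.choose (j + 1) : ℝ) ≤ (n : ℝ) ^ (j + 1) := by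
              exact_mod_cast Nat.choose_le_pow n (j + 1)
            have h2 : (n : ℝ) ^ (j + 1) ≤ (n : ℝ) ^ k := pow_le_pow_right₀ hn1 hj
            calc (n.choose (j + 1) : ℝ) * ‖u n j‖ ≤ (n.choose (j + 1) : ℝ) * 1 := by
                  gcongr; exact hu n j
              _ ≤ _ := by linarith
          · simp [hk n j (not_lt.1 hj)]
      _ ≤ k * (n : ℝ) ^ k := by
          rw [← sum_filter, sum_const, nsmul_eq_mul]
          have : ((range n).filter (fun j => j < k)).card ≤ k := by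
            calc _ ≤ (range k).card := card_le_card (fun j hj => mem_range.2 (mem_filter.1 hj).2)
              _ = k := card_range k
          have h2 : (((range n).filter (fun j => j < k)).card : ℝ) ≤ k := by exact_mod_cast this
          gcongr
  obtain ⟨n0, hn0⟩ := exists_nat_ge (max (2 * d + 2 : ℝ) (k * (128 * d) ^ d / ε))
  have hbig : ∀ n, n0 ≤ n → ∃ c : ℕ → 𝕜, (∀ j, 2 * d + 1 ≤ j → c j = 0) ∧ (∀ j, ‖c j‖ ≤ 1) ∧
      (∀ i, ‖∑ j ∈ range (n + 1), (n.choose j : 𝕜) * c (i + j)‖ ≤ 1) ∧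
      ∑ j ∈ range n, (n.choose (j + 1) : 𝕜) * (u n j + ε * c j) = 0 := by
    intro n hn
    have hn' : (n0 : ℝ) ≤ n := by exact_mod_cast hn
    have h1 : (2 * d + 2 : ℝ) ≤ n := ((le_max_left _ _).trans hn0).trans hn'
    have h2 : k * (128 * d : ℝ) ^ d / ε ≤ n := ((le_max_right _ _).trans hn0).trans hn'
    obtain ⟨c, c1, c2, c3, c4⟩ := bump d n (by exact_mod_cast h1)
    set R := ∑ j ∈ range n, (n.choose (j + 1) : ℝ) * c j with hR
    have hn0' : (0 : ℝ) < n := by have : (0 : ℝ) ≤ d := by positivity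
                                  linarith
    have hR0 : 0 < R := lt_of_lt_of_le (by positivity) c4
    set A : 𝕜 := -P n / ((ε * R : ℝ) : 𝕜) with hA
    have hAB : ‖A‖ * (4 ^ d * (4 * d * n) ^ d) ≤ 1 := by
      rw [hA, norm_div, norm_neg, RCLike.norm_ofReal, abs_of_pos (by positivity), div_mul_eq_mul_div,
        div_le_one (by positivity)]
      rw [div_le_iff₀ hε] at h2
      calc ‖P n‖ * (4 ^ d * (4 * d * n) ^ d) ≤ k * (n : ℝ) ^ k * (4 ^ d * (4 * d * n) ^ d) := by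
            gcongr; exact hP n
        _ = (k * (128 * d) ^ d) * ((n : ℝ) ^ k * (n / 8) ^ d) := by
            rw [show (128 * d : ℝ) = 4 * (4 * d) * 8 by ring]
            simp only [mul_pow, div_pow]
            field_simp
        _ ≤ (n * ε) * ((n : ℝ) ^ k * (n / 8) ^ d) := by gcongr
        _ = ε * ((n : ℝ) ^ 2 / 8) ^ d := by
            rw [show ((n : ℝ) ^ 2 / 8) = n * (n / 8) by ring, mul_pow, hd, pow_succ (n : ℝ) k]
            ring
        _ ≤ ε * R := by gcongr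
    refine ⟨fun j => A * (c j : 𝕜), fun j hj => by simp [c1 j hj], fun j => ?_, fun i => ?_, ?_⟩
    · rw [norm_mul, RCLike.norm_ofReal]
      exact (mul_le_mul_of_nonneg_left (c2 j) (norm_nonneg _)).trans hAB
    · have : ∑ j ∈ range (n + 1), (n.choose j : 𝕜) * (A * (c (i + j) : 𝕜))
          = A * ((∑ j ∈ range (n + 1), (n.choose j : ℝ) * c (i + j) : ℝ) : 𝕜) := by
        push_cast
        rw [mul_sum]
        exact sum_congr rfl (fun j _ => by ring)
      rw [this, norm_mul, RCLike.norm_ofReal]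
      exact (mul_le_mul_of_nonneg_left (c3 i) (norm_nonneg _)).trans hAB
    · have : ∑ j ∈ range n, (n.choose (j + 1) : 𝕜) * (u n j + ε * (A * (c j : 𝕜)))
          = P n + A * ((ε * R : ℝ) : 𝕜) := by
        rw [hR]
        push_cast
        simp only [P, mul_sum, ← sum_add_distrib]
        exact sum_congr rfl (fun j _ => by ring)
      rw [this, hA, div_mul_cancel₀]
      · ring
      · exact_mod_cast (by positivity : ε * R ≠ 0)
  choose! c c1 c2 c3 c4 using hbig
  refine ⟨2 + k * (n0 : ℝ) ^ k, 2 * d + 1, fun n j => if n0 ≤ n then c n j else 0,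
    le_add_of_nonneg_right (by positivity), fun n j hj => ?_, fun n j => ?_, fun n i => ?_, fun n => ?_⟩
  · beta_reduce
    split_ifs with h
    · exact c1 n h j hj
    · rfl
  · beta_reduce
    split_ifs with h
    · exact c2 n h j
    · simp
  · beta_reduce
    split_ifs with h
    · exact c3 n h i
    · simp
  · beta_reduce
    split_ifs with h
    · rw [c4 n h, norm_zero]; positivity
    · simp only [mul_zero, add_zero]
      have h1 : (n : ℝ) ≤ n0 := by exact_mod_cast (not_le.1 h).le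
      have h2 : k * (n : ℝ) ^ k ≤ k * (n0 : ℝ) ^ k := by gcongr
      linarith [hP n]

open Pool.Agent.H28.L1Lift

theorem result (𝕜 : Type) [RCLike 𝕜] :
    ∃ (X : Type) (_ : NormedAddCommGroup X) (_ : NormedSpace 𝕜 X) (_ : CompleteSpace X)
      (_ : TopologicalSpace.SeparableSpace X) (_ : Nontrivial X) (T : X →L[𝕜] X),
      DenseRange T ∧ Dense (⋃ n : ℕ, {x : X | (T ^ (n + 1)) x = 0}) ∧
      ¬ ∃ x : X, DenseRange (fun n : ℕ => ((1 + T) ^ n) x) := by
  classical
  let good : (ℕ → ℕ → 𝕜) → Prop := fun u => (∃ k, ∀ n j, k ≤ j → u n j = 0) ∧ (∀ n j, ‖u n j‖ ≤ 1) ∧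
    ∀ n : ℕ, ‖∑ j ∈ range (n + 1), (n.choose j : 𝕜) * u n j‖ ≤ 1
  let ε : ℕ → ℝ := fun m => 1 / ((m : ℝ) + 1)
  have hε0 : ∀ m, 0 < ε m := fun m => by positivity
  have hε1 : ∀ m, ε m ≤ 1 := fun m => by
    simp only [ε]; rw [div_le_one (by positivity)]; linarith [(Nat.cast_nonneg m : (0 : ℝ) ≤ m)]
  have hstep : ∀ (g : Subtype good) (m : ℕ), ∃ (M : ℝ) (L : ℕ) (c : ℕ → ℕ → 𝕜), 2 ≤ M ∧
      (∀ n j, L ≤ j → c n j = 0) ∧ (∀ n j, ‖c n j‖ ≤ 1) ∧
      (∀ n i, ‖∑ j ∈ range (n + 1), (n.choose j : 𝕜) * c n (i + j)‖ ≤ 1) ∧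
      ∀ n, ‖∑ j ∈ range n, (n.choose (j + 1) : 𝕜) * (g.1 n j + ε m * c n j)‖ ≤ M := by
    intro g m
    obtain ⟨k, hk⟩ := g.2.1
    exact step g.1 k hk g.2.2.1 (ε m) (hε0 m)
  choose M L c hM hL hc1 hc2 hc3 using hstep
  have hMn : ∀ g m, ‖((M g m : ℝ) : 𝕜)⁻¹‖ = (M g m)⁻¹ := fun g m => by
    rw [norm_inv, RCLike.norm_ofReal, abs_of_pos (by linarith [hM g m])]
  have hM0 : ∀ g m, ((M g m : ℝ) : 𝕜) ≠ 0 := fun g m => by
    have : M g m ≠ 0 := by linarith [hM g m]
    exact_mod_cast this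
  have hhalf : ∀ g m (t : ℝ), 0 ≤ t → t ≤ 2 → (M g m)⁻¹ * t ≤ 1 := by
    intro g m t _ ht
    have := hM g m
    rw [inv_mul_le_iff₀ (by linarith)]
    linarith
  let root : Subtype good := ⟨fun _ j => if j = 0 then 1 else 0, ⟨1, fun n j hj => if_neg (by omega)⟩,
    fun n j => by beta_reduce; split_ifs <;> simp, fun n => by simp⟩
  let zG : Subtype good → ℕ → ℕ → Subtype good := fun g m i => ⟨fun n j => c g m n (i + j),
    ⟨L g m, fun n j hj => hL g m n _ (by omega)⟩, fun n j => hc1 g m n _, fun n => hc2 g m n i⟩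
  let yG : Subtype good → ℕ → Subtype good := fun g m =>
    ⟨fun n j => Nat.casesOn j 0 (fun j => ((M g m : ℝ) : 𝕜)⁻¹ * (g.1 n j + ε m * c g m n j)), by
      refine ⟨?_, ?_, ?_⟩
      · obtain ⟨k, hk⟩ := g.2.1
        refine ⟨k + L g m + 1, fun n j hj => ?_⟩
        obtain ⟨j, rfl⟩ : ∃ j', j = j' + 1 := ⟨j - 1, by omega⟩
        simp only [hk n j (by omega), hL g m n j (by omega)]
        simp
      · intro n j
        cases j with
        | zero => simp
        | succ j =>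
          simp only [norm_mul, hMn]
          refine hhalf g m _ (norm_nonneg _) ((norm_add_le _ _).trans ?_)
          rw [norm_mul, RCLike.norm_ofReal, abs_of_pos (hε0 m)]
          have := g.2.2.1 n j
          have := mul_le_mul (hε1 m) (hc1 g m n j) (norm_nonneg _) zero_le_one
          linarith
      · intro n
        rw [sum_range_succ']
        simp only [Nat.rec_zero, mul_zero, add_zero]
        have : ∑ j ∈ range n, (n.choose (j + 1) : 𝕜) * (((M g m : ℝ) : 𝕜)⁻¹ * (g.1 n j + ε m * c g m n j))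
            = ((M g m : ℝ) : 𝕜)⁻¹ * ∑ j ∈ range n, (n.choose (j + 1) : 𝕜) * (g.1 n j + ε m * c g m n j) := by
          rw [mul_sum]; exact sum_congr rfl (fun j _ => by ring)
        rw [this, norm_mul, hMn, inv_mul_le_iff₀ (by linarith [hM g m]), mul_one]
        exact hc3 g m n⟩
  let U : List (ℕ × ℕ) → Subtype good := fun a => List.rec root
    (fun p _ g => Nat.casesOn p.2 (yG g p.1) (fun i => zG g p.1 i)) a
  let col : List (ℕ × ℕ) → L1 𝕜 (List (ℕ × ℕ)) := fun a => List.casesOn a 0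
    (fun p a => Nat.casesOn p.2 (((M (U a) p.1 : ℝ) : 𝕜)⁻¹ • (e 𝕜 a + (ε p.1 : 𝕜) • e 𝕜 ((p.1, 1) :: a)))
      (fun i => if i + 1 < L (U a) p.1 then e 𝕜 ((p.1, i + 2) :: a) else 0))
  have hcol : ∀ a, ‖col a‖ ≤ 1 := by
    rintro (_ | ⟨⟨m, _ | i⟩, a⟩)
    · simp [col]
    · simp only [col, Nat.rec_zero, norm_smul, hMn]
      refine hhalf _ m _ (norm_nonneg _) ((norm_add_le _ _).trans ?_)
      rw [norm_smul, norm_e, norm_e, RCLike.norm_ofReal, abs_of_pos (hε0 m)]
      linarith [hε1 m]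
    · simp only [col]
      split_ifs
      · rw [norm_e]
      · simp
  obtain ⟨T, hT, -⟩ := exists_lift (𝕜 := 𝕜) col 1 hcol
  have hT0 : T (e 𝕜 []) = 0 := hT []
  have hTy : ∀ m a, T (e 𝕜 ((m, 0) :: a))
      = ((M (U a) m : ℝ) : 𝕜)⁻¹ • (e 𝕜 a + (ε m : 𝕜) • e 𝕜 ((m, 1) :: a)) := fun m a => hT _
  have hTz : ∀ m i a, T (e 𝕜 ((m, i + 1) :: a))
      = if i + 1 < L (U a) m then e 𝕜 ((m, i + 2) :: a) else 0 := fun m i a => hT _
  have hφ : ∀ n j, ∃ φ : L1 𝕜 (List (ℕ × ℕ)) →L[𝕜] 𝕜, (∀ a, φ (e 𝕜 a) = (U a).1 n j) ∧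
      ∀ x, ‖φ x‖ ≤ 1 * ‖x‖ := fun n j => exists_lift _ 1 (fun a => (U a).2.2.1 n j)
  choose φ hφ hφn using hφ
  have hφT : ∀ n j, (φ n j).comp T = φ n (j + 1) := by
    intro n j
    apply ext_e
    rintro (_ | ⟨⟨m, _ | i⟩, a⟩)
    · rw [ContinuousLinearMap.comp_apply, hT0, map_zero, hφ]
      simp [U, root]
    · rw [ContinuousLinearMap.comp_apply, hTy, map_smul, map_add, map_smul, hφ, hφ, hφ]
      simp [U, yG, zG]
    · rw [ContinuousLinearMap.comp_apply, hTz, hφ]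
      split_ifs with h
      · rw [hφ]
        show c (U a) m n (i + 1 + j) = c (U a) m n (i + (j + 1))
        congr 1; omega
      · rw [map_zero]
        exact (hL (U a) m n (i + (j + 1)) (by omega)).symm
  have hφTk : ∀ n j x, φ n 0 ((T ^ j) x) = φ n j x := by
    intro n j
    induction j with
    | zero => intro x; simp
    | succ j ih => intro x; rw [pow_succ, ContinuousLinearMap.mul_apply, ih, ← hφT]; rfl
  have hg : ∀ n x, ‖φ n 0 (((1 + T) ^ n) x)‖ ≤ 1 * ‖x‖ := by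
    intro n
    apply norm_le_of_e ((φ n 0).comp ((1 + T) ^ n)) 1
    intro a
    have h1 := (U a).2.2.2 n
    rw [add_comm 1 T, (Commute.one_right T).add_pow, ContinuousLinearMap.comp_apply,
      ContinuousLinearMap.sum_apply, map_sum]
    refine le_trans (le_of_eq (congrArg norm (sum_congr rfl (fun j _ => ?_)))) h1
    rw [one_pow, mul_one, ← (Nat.cast_commute _ _).eq, ← nsmul_eq_mul, ContinuousLinearMap.smul_apply,
      map_nsmul, hφTk, hφ, nsmul_eq_mul]
  refine ⟨L1 𝕜 (List (ℕ × ℕ)), inferInstance, inferInstance, inferInstance, separable,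
    ⟨⟨e 𝕜 [], 0, fun h => by simpa [h] using norm_e (𝕜 := 𝕜) ([] : List (ℕ × ℕ))⟩⟩, T, ?_, ?_, ?_⟩
  · have h1 : Submodule.span 𝕜 (Set.range (e 𝕜)) ≤ (LinearMap.range T.toLinearMap).topologicalClosure := by
      rw [Submodule.span_le]
      rintro _ ⟨a, rfl⟩
      have h2 : Tendsto (fun m : ℕ => T (((M (U a) m : ℝ) : 𝕜) • e 𝕜 ((m, 0) :: a))) atTop (𝓝 (e 𝕜 a)) := by
        rw [tendsto_iff_norm_sub_tendsto_zero]
        refine tendsto_one_div_add_atTop_nhds_zero_nat.congr (fun m => ?_)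
        rw [map_smul, hTy, smul_smul, mul_inv_cancel₀ (hM0 _ _), one_smul, add_sub_cancel_left,
          norm_smul, norm_e, RCLike.norm_ofReal, abs_of_pos (hε0 m), mul_one]
      exact mem_closure_of_tendsto h2 (Eventually.of_forall (fun m => ⟨_, rfl⟩))
    exact dense_closure.1 (dense_span.mono h1)
  · have hz : ∀ m a t i, L (U a) m ≤ i + t → (T ^ (t + 1)) (e 𝕜 ((m, i + 1) :: a)) = 0 := by
      intro m a t
      induction t with
      | zero => intro i hi; rw [zero_add, pow_one, hTz, if_neg (by omega)]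
      | succ t ih =>
        intro i hi
        rw [pow_succ, ContinuousLinearMap.mul_apply, hTz]
        split_ifs
        · exact ih (i + 1) (by omega)
        · rw [map_zero]
    have hmono : ∀ x p q, p ≤ q → (T ^ (p + 1)) x = 0 → (T ^ (q + 1)) x = 0 := by
      intro x p q hpq h
      obtain ⟨r, rfl⟩ := Nat.exists_eq_add_of_le hpq
      rw [show p + r + 1 = r + (p + 1) by omega, pow_add, ContinuousLinearMap.mul_apply, h, map_zero]
    have hnil : ∀ a, ∃ k, (T ^ (k + 1)) (e 𝕜 a) = 0 := by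
      intro a
      induction a with
      | nil => exact ⟨0, by rw [zero_add, pow_one, hT0]⟩
      | cons p a ih =>
        obtain ⟨m, _ | i⟩ := p
        · obtain ⟨k, hk⟩ := ih
          refine ⟨k + L (U a) m + 1, ?_⟩
          rw [pow_succ, ContinuousLinearMap.mul_apply, hTy, map_smul, map_add, map_smul,
            hmono _ k _ (by omega) hk, hz m a _ 0 (by omega)]
          simp
        · exact ⟨L (U a) m, hz m a _ i (by omega)⟩
    refine dense_span.mono (fun x hx => ?_)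
    simp only [Set.mem_iUnion, Set.mem_setOf_eq]
    induction hx using Submodule.span_induction with
    | mem x hx => obtain ⟨a, rfl⟩ := hx; exact hnil a
    | zero => exact ⟨0, map_zero _⟩
    | add x y _ _ hx hy =>
      obtain ⟨p, hp⟩ := hx
      obtain ⟨q, hq⟩ := hy
      exact ⟨p + q, by rw [map_add, hmono x p _ (by omega) hp, hmono y q _ (by omega) hq, add_zero]⟩
    | smul c x _ hx =>
      obtain ⟨p, hp⟩ := hx
      exact ⟨p, by rw [map_smul, hp, smul_zero]⟩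
  · rintro ⟨x, hx⟩
    obtain ⟨p, hp⟩ := hx.exists_dist_lt 0 (show (0 : ℝ) < 1 / 2 by norm_num)
    haveI : Nontrivial (L1 𝕜 (List (ℕ × ℕ))) :=
      ⟨⟨e 𝕜 [], 0, fun h => by simpa [h] using norm_e (𝕜 := 𝕜) ([] : List (ℕ × ℕ))⟩⟩
    have hfin : ((fun n : ℕ => ((1 + T) ^ n) x) '' Set.Iic p).Finite := (Set.finite_Iic p).image _
    have hd := Dense.diff_finite hx hfin
    obtain ⟨_, ⟨⟨q, rfl⟩, hq1⟩, hq2⟩ := hd.exists_dist_lt (e 𝕜 []) (show (0 : ℝ) < 1 / 2 by norm_num)
    have hpq : p ≤ q := by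
      by_contra h
      exact hq1 ⟨q, (not_le.1 h).le, rfl⟩
    obtain ⟨n, rfl⟩ := Nat.exists_eq_add_of_le' hpq
    have h1 := hg n (((1 + T) ^ p) x)
    rw [← ContinuousLinearMap.mul_apply, ← pow_add] at h1
    have h2 := hφn n 0 (e 𝕜 [] - ((1 + T) ^ (n + p)) x)
    rw [map_sub, hφ] at h2
    rw [dist_comm, dist_zero_right] at hp
    rw [dist_eq_norm] at hq2
    have h3 : (U []).1 n 0 = 1 := by simp [U, root]
    rw [h3] at h2
    have h4 := norm_add_le (1 - φ n 0 (((1 + T) ^ (n + p)) x)) (φ n 0 (((1 + T) ^ (n + p)) x))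
    rw [sub_add_cancel, norm_one] at h4
    linarith

end Pool.Agent.Results.MP_550623_an.NotHypercyclic
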